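import Pool.Agent.V1190.BS.Space

/-! How much of a block average Schreier sets can capture. -/

open Filter Topology

namespace Pool.Agent.V1190.BS

/-- Data: blocks `β j` supported in `(q j ^ 2, q (j+1)]`, averaged over `[k i, k (i+1))`. -/
structure Data (q : ℕ → ℕ) (β : ℕ → ℕ → ℝ) (k : ℕ → ℕ) (η δ : ℝ) : Prop where
  q1 : ∀ j, 1 ≤ q j
  qs : ∀ j, q j ^ 2 ≤ q (j + 1)
  nn : ∀ j n, 0 ≤ β j n
  le1 : ∀ j n, β j n ≤ 1
  sup : ∀ j n, β j n ≠ 0 → q j ^ 2 < n ∧ n ≤ q (j + 1)
  k0 : k 0 = 0
  ks : ∀ i, k i < k (i + 1)
  sz : ∀ i, (q (k i) : ℝ) ≤ η * ((k (i + 1) : ℝ) - k i)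
  d1 : ∀ j F, S1 F → ∑ n ∈ F, β j n ≤ δ
  d2 : ∀ j G, S2 G → ∑ n ∈ G, β j n ≤ 2

variable {q : ℕ → ℕ} {β : ℕ → ℕ → ℝ} {k : ℕ → ℕ} {η δ : ℝ}

lemma Data.q_mono (D : Data q β k η δ) : Monotone q := by
  apply monotone_nat_of_le_succ
  intro j
  refine le_trans ?_ (D.qs j)
  have := D.q1 j
  nlinarith

lemma Data.k_mono (D : Data q β k η δ) : StrictMono k := strictMono_nat_of_lt_succ D.ks

/-- Every index lies in some block. -/
lemma Data.block (D : Data q β k η δ) (j : ℕ) : ∃ i, k i ≤ j ∧ j < k (i + 1) := by
  have hex : ∃ i, j < k (i + 1) := ⟨j, (Nat.lt_succ_self j).trans_le (D.k_mono.le_apply)⟩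
  classical
  refine ⟨Nat.find hex, ?_, Nat.find_spec hex⟩
  rcases Nat.eq_zero_or_pos (Nat.find hex) with h | h
  · rw [h, D.k0]; exact Nat.zero_le _
  · have := Nat.find_min hex (m := Nat.find hex - 1) (by omega)
    rw [show Nat.find hex - 1 + 1 = Nat.find hex by omega] at this
    omega

lemma Data.eta_pos (D : Data q β k η δ) : 0 < η := by
  have h1 := D.sz 0
  have h2 : (1:ℝ) ≤ q (k 0) := by exact_mod_cast D.q1 (k 0)
  have h3 : (0:ℝ) < (k (0 + 1) : ℝ) - k 0 := by
    have : (k 0 : ℝ) < k (0 + 1) := by exact_mod_cast D.ks 0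
    linarith
  by_contra hneg
  push Not at hneg
  have := mul_nonpos_of_nonpos_of_nonneg hneg h3.le
  linarith

lemma Data.d_nonneg (D : Data q β k η δ) : 0 ≤ δ := by
  have := D.d1 0 ∅ (by intro i hi; simp at hi)
  simpa using this

/-- Block averages over a set. -/
noncomputable def avg (β : ℕ → ℕ → ℝ) (k : ℕ → ℕ) (G : Finset ℕ) (i : ℕ) : ℝ :=
  (∑ j ∈ Finset.Ico (k i) (k (i + 1)), ∑ n ∈ G, β j n) / ((k (i + 1) : ℝ) - k i)

lemma Data.sz_pos (D : Data q β k η δ) (i : ℕ) : (0:ℝ) < (k (i + 1) : ℝ) - k i := by
  have : (k i : ℝ) < k (i + 1) := by exact_mod_cast D.ks i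
  linarith

lemma Data.card_Ico (D : Data q β k η δ) (i : ℕ) :
    ((Finset.Ico (k i) (k (i + 1))).card : ℝ) = (k (i + 1) : ℝ) - k i := by
  rw [Nat.card_Ico, Nat.cast_sub (D.ks i).le]

/-- Schreier sets capture essentially one block average of size `δ`. -/
lemma Data.cap1 (D : Data q β k η δ) {F : Finset ℕ} (hF : S1 F) :
    ∃ i0, ∀ i, avg β k F i ≤ if i = i0 then δ else η := by
  classical
  have hη := D.eta_pos
  by_cases hex : ∃ j, ∃ n ∈ F, β j n ≠ 0
  · set j0 := Nat.find hex with hj0
    obtain ⟨n0, hn0, hn0'⟩ := Nat.find_spec hex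
    obtain ⟨i0, hi1, hi2⟩ := D.block j0
    have hcard : F.card ≤ q (j0 + 1) := (hF n0 hn0).trans (D.sup j0 n0 hn0').2
    refine ⟨i0, fun i => ?_⟩
    by_cases hi : i = i0
    · rw [if_pos hi]
      unfold avg
      rw [div_le_iff₀ (D.sz_pos i)]
      calc ∑ j ∈ Finset.Ico (k i) (k (i + 1)), ∑ n ∈ F, β j n
          ≤ ∑ j ∈ Finset.Ico (k i) (k (i + 1)), δ := Finset.sum_le_sum fun j _ => D.d1 j F hF
        _ = δ * ((k (i + 1) : ℝ) - k i) := by
            rw [Finset.sum_const, nsmul_eq_mul, D.card_Ico, mul_comm]
    · rw [if_neg hi]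
      unfold avg
      rw [div_le_iff₀ (D.sz_pos i)]
      rcases Nat.lt_or_gt_of_ne hi with h | h
      · have hz : ∑ j ∈ Finset.Ico (k i) (k (i + 1)), ∑ n ∈ F, β j n = 0 := by
          apply Finset.sum_eq_zero
          intro j hj
          apply Finset.sum_eq_zero
          intro n hn
          by_contra hne
          have h1 : j < j0 := by
            have h2 := (Finset.mem_Ico.1 hj).2
            have h3 : k (i + 1) ≤ k i0 := D.k_mono.monotone h
            omega
          exact Nat.find_min hex h1 ⟨n, hn, hne⟩
        rw [hz]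
        have := D.sz_pos i
        positivity
      · have h1 : ∑ j ∈ Finset.Ico (k i) (k (i + 1)), ∑ n ∈ F, β j n ≤ F.card := by
          rw [Finset.sum_comm]
          calc ∑ n ∈ F, ∑ j ∈ Finset.Ico (k i) (k (i + 1)), β j n ≤ ∑ n ∈ F, (1:ℝ) := by
                apply Finset.sum_le_sum
                intro n _
                by_cases hz : ∃ j ∈ Finset.Ico (k i) (k (i + 1)), β j n ≠ 0
                · obtain ⟨j, hj, hjn⟩ := hz
                  rw [Finset.sum_eq_single j]
                  · exact D.le1 j n
                  · intro j' _ hne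
                    by_contra hne'
                    have a1 := D.sup j n hjn
                    have a2 := D.sup j' n hne'
                    rcases Nat.lt_or_gt_of_ne hne with h' | h'
                    · have a3 : q (j' + 1) ≤ q j := D.q_mono h'
                      have a4 : q j ≤ q j ^ 2 := by have := D.q1 j; nlinarith
                      omega
                    · have a3 : q (j + 1) ≤ q j' := D.q_mono h'
                      have a4 : q j' ≤ q j' ^ 2 := by have := D.q1 j'; nlinarith
                      omega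
                  · intro h'; exact absurd hj h'
                · push Not at hz
                  rw [Finset.sum_eq_zero hz]
                  exact zero_le_one
            _ = F.card := by simp
        have h2 : (F.card : ℝ) ≤ q (k i) := by
          have h3 : q (j0 + 1) ≤ q (k i) := by
            apply D.q_mono
            have h4 : k (i0 + 1) ≤ k i := D.k_mono.monotone h
            omega
          exact_mod_cast hcard.trans h3
        exact (h1.trans h2).trans (D.sz i)
  · refine ⟨0, fun i => ?_⟩
    push Not at hex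
    have hz : avg β k F i = 0 := by
      unfold avg
      rw [Finset.sum_eq_zero, zero_div]
      intro j _
      exact Finset.sum_eq_zero fun n hn => hex j n hn
    rw [hz]
    split_ifs
    · exact D.d_nonneg
    · exact hη.le

/-- Second order Schreier sets. -/
lemma Data.cap2 (D : Data q β k η δ) {G : Finset ℕ} (hG : S2 G) :
    ∃ i0, ∀ i, avg β k G i ≤ if i = i0 then 2 else δ + 2 * η := by
  classical
  have hη := D.eta_pos
  have hδ := D.d_nonneg
  by_cases hex : ∃ j, ∃ n ∈ G, β j n ≠ 0
  · set j0 := Nat.find hex with hj0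
    obtain ⟨n0, hn0, hn0'⟩ := Nat.find_spec hex
    obtain ⟨i0, hi1, hi2⟩ := D.block j0
    obtain ⟨A, hA1, hA2, hA3⟩ := hG
    have hG : S2 G := ⟨A, hA1, hA2, hA3⟩
    have hcard : A.card ≤ q (j0 + 1) := (hA3 n0 hn0).trans (D.sup j0 n0 hn0').2
    -- the first block met by a set
    set st : Finset ℕ → ℕ := fun F =>
      if h : ∃ j, ∃ n ∈ F, n ∈ G ∧ β j n ≠ 0 then Nat.find h else 0 with hst
    set T : Finset ℕ := A.image st with hT
    have hTcard : T.card ≤ A.card := Finset.card_image_le
    refine ⟨i0, fun i => ?_⟩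
    by_cases hi : i = i0
    · rw [if_pos hi]
      unfold avg
      rw [div_le_iff₀ (D.sz_pos i)]
      calc ∑ j ∈ Finset.Ico (k i) (k (i + 1)), ∑ n ∈ G, β j n
          ≤ ∑ j ∈ Finset.Ico (k i) (k (i + 1)), 2 := Finset.sum_le_sum fun j _ => D.d2 j G hG
        _ = 2 * ((k (i + 1) : ℝ) - k i) := by
            rw [Finset.sum_const, nsmul_eq_mul, D.card_Ico, mul_comm]
    · rw [if_neg hi]
      unfold avg
      rw [div_le_iff₀ (D.sz_pos i)]
      rcases Nat.lt_or_gt_of_ne hi with h | h
      · have hz : ∑ j ∈ Finset.Ico (k i) (k (i + 1)), ∑ n ∈ G, β j n = 0 := by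
          apply Finset.sum_eq_zero
          intro j hj
          apply Finset.sum_eq_zero
          intro n hn
          by_contra hne
          have h1 : j < j0 := by
            have h2 := (Finset.mem_Ico.1 hj).2
            have h3 : k (i + 1) ≤ k i0 := D.k_mono.monotone h
            omega
          exact Nat.find_min hex h1 ⟨n, hn, hne⟩
        rw [hz]
        have := D.sz_pos i
        positivity
      · have hki : k (i0 + 1) ≤ k i := D.k_mono.monotone h
        -- blocks in which nothing starts
        have hgood : ∀ j ∈ Finset.Ico (k i) (k (i + 1)), j ∉ T → ∑ n ∈ G, β j n ≤ δ := by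
          intro j hj hjT
          have hj1 : j0 + 1 ≤ j := by have := (Finset.mem_Ico.1 hj).1; omega
          set G' := G.filter (fun n => β j n ≠ 0) with hG'
          have hsum : ∑ n ∈ G, β j n = ∑ n ∈ G', β j n := by
            rw [hG', Finset.sum_filter_ne_zero]
          rw [hsum]
          apply D.d1
          -- the captured part is a Schreier set
          have hcard' : G'.card ≤ A.card * q j := by
            have hsub : G' ⊆ A.biUnion (fun F => F ∩ G') := by
              intro n hn
              obtain ⟨F, hF, hnF⟩ := Finset.mem_biUnion.1 (hA2 (Finset.mem_filter.1 hn).1)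
              exact Finset.mem_biUnion.2 ⟨F, hF, Finset.mem_inter.2 ⟨hnF, hn⟩⟩
            refine (Finset.card_le_card hsub).trans ?_
            refine Finset.card_biUnion_le_card_mul _ _ _ ?_
            intro F hF
            by_cases hne : (F ∩ G').Nonempty
            · obtain ⟨n, hn⟩ := hne
              rw [Finset.mem_inter, hG', Finset.mem_filter] at hn
              have hexF : ∃ j, ∃ n ∈ F, n ∈ G ∧ β j n ≠ 0 := ⟨j, n, hn.1, hn.2.1, hn.2.2⟩
              have hstF : st F = Nat.find hexF := by
                rw [hst]; simp only; rw [dif_pos hexF]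
              have h1 : Nat.find hexF ≤ j := Nat.find_min' hexF ⟨n, hn.1, hn.2.1, hn.2.2⟩
              have h2 : st F ≠ j := by
                intro heq
                exact hjT (Finset.mem_image.2 ⟨F, hF, heq⟩)
              have h3 : Nat.find hexF + 1 ≤ j := by omega
              obtain ⟨n1, hn1, -, hn1'⟩ := Nat.find_spec hexF
              have h4 : F.card ≤ n1 := hA1 F hF n1 hn1
              have h5 := (D.sup _ _ hn1').2
              have h6 : q (Nat.find hexF + 1) ≤ q j := D.q_mono h3
              exact (Finset.card_le_card Finset.inter_subset_left).trans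
                ((h4.trans h5).trans h6)
            · rw [Finset.not_nonempty_iff_eq_empty] at hne
              rw [hne]; simp
          have h7 : A.card * q j ≤ q j ^ 2 := by
            rw [sq]
            apply Nat.mul_le_mul_right
            exact hcard.trans (D.q_mono hj1)
          intro n hn
          have h8 := (D.sup j n (Finset.mem_filter.1 hn).2).1
          omega
        have hsum : ∑ j ∈ Finset.Ico (k i) (k (i + 1)), ∑ n ∈ G, β j n ≤
            ∑ j ∈ Finset.Ico (k i) (k (i + 1)), (δ + if j ∈ T then 2 else 0) := by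
          apply Finset.sum_le_sum
          intro j hj
          by_cases hjT : j ∈ T
          · rw [if_pos hjT]
            have := D.d2 j G hG
            linarith
          · rw [if_neg hjT, add_zero]
            exact hgood j hj hjT
        refine hsum.trans ?_
        rw [Finset.sum_add_distrib, Finset.sum_const, nsmul_eq_mul, D.card_Ico,
          ← Finset.sum_filter, Finset.sum_const, nsmul_eq_mul]
        have h9 : (((Finset.Ico (k i) (k (i + 1))).filter (fun j => j ∈ T)).card : ℝ) ≤
            q (k i) := by
          have h10 : ((Finset.Ico (k i) (k (i + 1))).filter (fun j => j ∈ T)).card ≤ T.card := by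
            apply Finset.card_le_card
            intro j hj
            exact (Finset.mem_filter.1 hj).2
          have h11 : q (j0 + 1) ≤ q (k i) := by
            apply D.q_mono
            omega
          exact_mod_cast ((h10.trans hTcard).trans hcard).trans h11
        have h12 := D.sz i
        nlinarith
  · refine ⟨0, fun i => ?_⟩
    push Not at hex
    have hz : avg β k G i = 0 := by
      unfold avg
      rw [Finset.sum_eq_zero, zero_div]
      intro j _
      exact Finset.sum_eq_zero fun n hn => hex j n hn
    rw [hz]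
    split_ifs
    · norm_num
    · positivity

/-- A weighted sum bound. -/
lemma wsum_le {I : Finset ℕ} {c a : ℕ → ℝ} {i0 : ℕ} {κ Λ A B : ℝ} (hc : ∀ i, 0 ≤ c i)
    (hcκ : ∀ i, c i ≤ κ) (hΛ : ∑ i ∈ I, c i ≤ Λ) (hA : 0 ≤ A) (hB : 0 ≤ B)
    (ha : ∀ i, a i ≤ if i = i0 then A else B) : ∑ i ∈ I, c i * a i ≤ κ * A + Λ * B := by
  classical
  calc ∑ i ∈ I, c i * a i ≤ ∑ i ∈ I, ((if i = i0 then κ * A else 0) + c i * B) := by
        apply Finset.sum_le_sum
        intro i _
        have h1 := mul_le_mul_of_nonneg_left (ha i) (hc i)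
        refine h1.trans ?_
        by_cases h : i = i0
        · rw [if_pos h, if_pos h]
          have h2 := mul_le_mul_of_nonneg_right (hcκ i) hA
          have h3 := mul_nonneg (hc i) hB
          linarith
        · rw [if_neg h, if_neg h, zero_add]
    _ = (∑ i ∈ I, if i = i0 then κ * A else 0) + (∑ i ∈ I, c i) * B := by
        rw [Finset.sum_add_distrib, Finset.sum_mul]
    _ ≤ κ * A + Λ * B := by
        apply add_le_add
        · rw [Finset.sum_ite_eq']
          split_ifs
          · exact le_rfl
          · exact mul_nonneg ((hc 0).trans (hcκ 0)) hA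
        · exact mul_le_mul_of_nonneg_right hΛ hB

end Pool.Agent.V1190.BS
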