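import Mathlib

/-! Repeated averages and the weak Banach-Saks quantities of finite order. -/

open Filter Topology
open scoped ENNReal

namespace Pool.Agent.V1190.BS

/-- Smallest element of the support. -/
noncomputable def minSupp (a : ℕ →₀ ℝ) : ℕ := sInf {i | a i ≠ 0}

/-- Order zero: the unit vectors along `M` (`M n` is the element number `n + 1` of the set). -/
noncomputable def zeroAvg (M : ℕ → ℕ) (n : ℕ) : ℕ →₀ ℝ := Finsupp.single (M n) 1

/-- The starting indices `k_n` of the blocks in the successor step (indices start at `0`). -/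
noncomputable def start (ζ : ℕ → (ℕ →₀ ℝ)) : ℕ → ℕ
  | 0 => 0
  | (n + 1) => start ζ n + minSupp (ζ (start ζ n))

/-- The successor step. -/
noncomputable def succAvg (ζ : ℕ → (ℕ →₀ ℝ)) (n : ℕ) : ℕ →₀ ℝ :=
  (1 / (minSupp (ζ (start ζ n)) : ℝ)) •
    ∑ i ∈ Finset.range (minSupp (ζ (start ζ n))), ζ (start ζ n + i)

/-- Repeated averages of finite order. -/
noncomputable def repAvg : ℕ → (ℕ → ℕ) → ℕ → (ℕ →₀ ℝ)
  | 0, M => zeroAvg M
  | (ξ + 1), M => succAvg (repAvg ξ M)

section

variable {Y : Type*} [NormedAddCommGroup Y] [NormedSpace ℝ Y]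

/-- The vector `a · (x_k)`. -/
noncomputable def comb (a : ℕ →₀ ℝ) (x : ℕ → Y) : Y := a.sum fun i c => c • x i

/-- Oscillation of a sequence. -/
noncomputable def ca (y : ℕ → Y) : ℝ≥0∞ := ⨅ n, ⨆ k, ⨆ l, ⨆ (_ : n ≤ k), ⨆ (_ : n ≤ l),
  edist (y k) (y l)

/-- Cesaro means. -/
noncomputable def ces (y : ℕ → Y) (n : ℕ) : Y :=
  (1 / ((n : ℝ) + 1)) • ∑ i ∈ Finset.range (n + 1), y i

/-- Oscillation of the Cesaro means. -/
noncomputable def cca (y : ℕ → Y) : ℝ≥0∞ := ca (ces y)

/-- The quantity for one sequence and order `ξ`. -/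
noncomputable def tcca (ξ : ℕ) (x : ℕ → Y) : ℝ≥0∞ :=
  ⨅ (M : ℕ → ℕ) (_ : StrictMono M) (_ : 1 ≤ M 0), cca (fun n => comb (repAvg ξ M n) x)

/-- Weak convergence of a sequence. -/
def WeaklyConvergent (x : ℕ → Y) : Prop :=
  ∃ x0 : Y, ∀ f : Y →L[ℝ] ℝ, Tendsto (fun n => f (x n)) atTop (𝓝 (f x0))

/-- The weak Banach-Saks quantity of order `ξ` of a set. -/
noncomputable def wbs (ξ : ℕ) (A : Set Y) : ℝ≥0∞ :=
  ⨆ (x : ℕ → Y) (_ : ∀ n, x n ∈ A) (_ : WeaklyConvergent x), tcca ξ x

/-- Cesaro weights. -/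
noncomputable def cw (K i : ℕ) : ℝ := if i < K + 1 then 1 / ((K : ℝ) + 1) else 0

lemma cw_nonneg (K i : ℕ) : 0 ≤ cw K i := by
  unfold cw
  split_ifs
  · positivity
  · exact le_rfl

lemma cw_le (K i : ℕ) : cw K i ≤ 1 / ((K : ℝ) + 1) := by
  unfold cw
  split_ifs
  · exact le_rfl
  · positivity

lemma sum_cw {K R : ℕ} (h : K + 1 ≤ R) : ∑ i ∈ Finset.range R, cw K i = 1 := by
  unfold cw
  rw [← Finset.sum_filter]
  have : (Finset.range R).filter (fun i => i < K + 1) = Finset.range (K + 1) := by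
    ext i
    simp only [Finset.mem_filter, Finset.mem_range]
    omega
  rw [this, Finset.sum_const, Finset.card_range, nsmul_eq_mul]
  push_cast
  field_simp

lemma ces_eq (y : ℕ → Y) {K R : ℕ} (h : K + 1 ≤ R) :
    ces y K = ∑ i ∈ Finset.range R, cw K i • y i := by
  unfold ces cw
  simp only [ite_smul, zero_smul]
  rw [← Finset.sum_filter]
  have : (Finset.range R).filter (fun i => i < K + 1) = Finset.range (K + 1) := by
    ext i
    simp only [Finset.mem_filter, Finset.mem_range]
    omega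
  rw [this, Finset.smul_sum]

lemma minSupp_single {m : ℕ} : minSupp (Finsupp.single m (1:ℝ)) = m := by
  unfold minSupp
  have : {i | (Finsupp.single m (1:ℝ)) i ≠ 0} = {m} := by
    ext i
    simp only [Set.mem_ofPred_eq, Set.mem_singleton_iff, Finsupp.single_apply]
    constructor
    · intro h
      by_contra hne
      exact h (if_neg (fun h' => hne h'.symm))
    · intro h
      rw [if_pos h.symm]
      exact one_ne_zero
  rw [this]
  exact csInf_singleton m

/-- The block starts for order one. -/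
lemma start_zeroAvg (M : ℕ → ℕ) (n : ℕ) :
    start (zeroAvg M) (n + 1) = start (zeroAvg M) n + M (start (zeroAvg M) n) := by
  change start (zeroAvg M) n + minSupp (zeroAvg M (start (zeroAvg M) n)) = _
  unfold zeroAvg
  rw [minSupp_single]

lemma comb_one (M : ℕ → ℕ) (x : ℕ → Y) (n : ℕ) :
    comb (repAvg 1 M n) x = (1 / (M (start (zeroAvg M) n) : ℝ)) •
      ∑ i ∈ Finset.range (M (start (zeroAvg M) n)), x (M (start (zeroAvg M) n + i)) := by
  have h1 : repAvg 1 M n = (1 / (M (start (zeroAvg M) n) : ℝ)) •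
      ∑ i ∈ Finset.range (M (start (zeroAvg M) n)),
        Finsupp.single (M (start (zeroAvg M) n + i)) (1:ℝ) := by
    change succAvg (zeroAvg M) n = _
    unfold succAvg
    have h2 : minSupp (zeroAvg M (start (zeroAvg M) n)) = M (start (zeroAvg M) n) := by
      unfold zeroAvg
      rw [minSupp_single]
    rw [h2]
    rfl
  have hlin : ∀ a : ℕ →₀ ℝ, comb a x = Finsupp.linearCombination ℝ x a := by
    intro a
    rw [Finsupp.linearCombination_apply]
    rfl
  rw [hlin, h1, map_smul, map_sum]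
  congr 1
  apply Finset.sum_congr rfl
  intro i _
  rw [Finsupp.linearCombination_single, one_smul]

end

end Pool.Agent.V1190.BS
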