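import Pool.Agent.V1190.BS.Upper

/-! Weak nullness of the basis and the lower bound. -/

open Filter Topology
open scoped ENNReal

namespace Pool.Agent.V1190.BS

/-- Far out positive vectors on which `f` is large. -/
structure Good (f : X →L[ℝ] ℝ) (δ : ℝ) (v : X) (a Q : ℕ) (δ1 : ℝ) : Prop where
  fv : δ ≤ f v
  lo : ∀ n, co n v ≠ 0 → a < n
  hi : ∀ n, co n v ≠ 0 → n ≤ Q
  l1 : ∀ G : Finset ℕ, ∑ n ∈ G, |co n v| ≤ 1
  s1 : ∀ F, S1 F → ∑ n ∈ F, |co n v| ≤ δ1

lemma step_up {f : X →L[ℝ] ℝ} {δ δ1 : ℝ} (H : ∀ a, ∃ v Q, Good f δ v a Q δ1) {R : ℕ}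
    (hR : 1 ≤ R) {η : ℝ} (hη : 0 < η) (a : ℕ) :
    ∃ v Q, Good f δ v a Q (δ1 / R + η) ∧
      ∀ G, S2 G → ∑ n ∈ G, |co n v| ≤ 2 / R + δ1 + 2 * η := by
  classical
  choose V Q hV using H
  set q : ℕ → ℕ := fun j => Nat.rec (a + 1) (fun _ p => max (p ^ 2 + 1) (Q (p ^ 2))) j with hq
  have hqs : ∀ j, q (j + 1) = max (q j ^ 2 + 1) (Q (q j ^ 2)) := fun j => rfl
  have hq1 : ∀ j, a + 1 ≤ q j := by
    intro j
    induction j with
    | zero => exact le_rfl
    | succ j ih =>
      rw [hqs]
      have h2 : q j ≤ q j ^ 2 := by nlinarith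
      have := le_max_left (q j ^ 2 + 1) (Q (q j ^ 2))
      omega
  set b : ℕ → X := fun j => V (q j ^ 2) with hb
  have hg : ∀ j, Good f δ (b j) (q j ^ 2) (Q (q j ^ 2)) δ1 := fun j => hV (q j ^ 2)
  set k : ℕ → ℕ := fun i => Nat.rec 0 (fun _ p => p + (⌈(q p : ℝ) / η⌉₊ + 1)) i with hk
  have hk1 : ∀ i, k (i + 1) = k i + (⌈(q (k i) : ℝ) / η⌉₊ + 1) := fun i => rfl
  have D : Data q (fun j n => |co n (b j)|) k η δ1 := by
    refine ⟨fun j => ?_, fun j => ?_, fun j n => abs_nonneg _, fun j n => ?_, fun j n hne => ?_,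
      rfl, fun i => ?_, fun i => ?_, fun j F hF => ?_, fun j G _ => ?_⟩
    · have := hq1 j; omega
    · rw [hqs]
      have := le_max_left (q j ^ 2 + 1) (Q (q j ^ 2))
      omega
    · have := (hg j).l1 {n}
      rwa [Finset.sum_singleton] at this
    · have h1 : co n (b j) ≠ 0 := fun h => hne (by simp only [h, abs_zero])
      refine ⟨(hg j).lo n h1, ?_⟩
      rw [hqs]
      exact ((hg j).hi n h1).trans (le_max_right _ _)
    · have := hk1 i
      omega
    · have h1 : (k (i + 1) : ℝ) - k i = (⌈(q (k i) : ℝ) / η⌉₊ : ℝ) + 1 := by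
        rw [hk1 i]
        push_cast
        ring
      rw [h1]
      have h2 := Nat.le_ceil ((q (k i) : ℝ) / η)
      rw [div_le_iff₀ hη] at h2
      nlinarith
    · exact (hg j).s1 F hF
    · have := (hg j).l1 G
      linarith
  set bb : ℕ → X := fun i => (1 / ((k (i + 1) : ℝ) - k i)) •
      ∑ j ∈ Finset.Ico (k i) (k (i + 1)), b j with hbb
  set v : X := ∑ i ∈ Finset.range R, (1 / (R : ℝ)) • bb i with hv
  have hRpos : (0:ℝ) < R := by exact_mod_cast hR
  have key : ∀ G : Finset ℕ, ∑ n ∈ G, |co n v| ≤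
      ∑ i ∈ Finset.range R, (1 / (R : ℝ)) * avg (fun j n => |co n (b j)|) k G i := by
    intro G
    calc ∑ n ∈ G, |co n v|
        ≤ ∑ n ∈ G, ∑ i ∈ Finset.range R, (1 / (R : ℝ)) * ((1 / ((k (i + 1) : ℝ) - k i)) *
            ∑ j ∈ Finset.Ico (k i) (k (i + 1)), |co n (b j)|) := by
          apply Finset.sum_le_sum
          intro n _
          rw [hv, map_sum]
          refine (Finset.abs_sum_le_sum_abs _ _).trans ?_
          apply Finset.sum_le_sum
          intro i _
          have hpos := D.sz_pos i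
          rw [map_smul, smul_eq_mul, abs_mul, abs_of_pos (a := 1 / (R : ℝ)) (by positivity)]
          simp only [hbb]
          rw [map_smul, map_sum, smul_eq_mul, abs_mul,
            abs_of_nonneg (a := 1 / ((k (i + 1) : ℝ) - k i)) (by positivity)]
          gcongr
          exact Finset.abs_sum_le_sum_abs _ _
      _ = ∑ i ∈ Finset.range R, (1 / (R : ℝ)) * avg (fun j n => |co n (b j)|) k G i := by
          rw [Finset.sum_comm]
          apply Finset.sum_congr rfl
          intro i _
          rw [← Finset.mul_sum, ← Finset.mul_sum]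
          unfold avg
          rw [Finset.sum_comm]
          ring
  have hsumR : ∑ i ∈ Finset.range R, (1 / (R : ℝ)) ≤ 1 := by
    rw [Finset.sum_const, Finset.card_range, nsmul_eq_mul]
    rw [mul_one_div_cancel hRpos.ne']
  have hδ1 := D.d_nonneg
  have hsupp : ∀ n, co n v ≠ 0 → ∃ j < k R, co n (b j) ≠ 0 := by
    intro n hn
    by_contra hcon
    push Not at hcon
    apply hn
    rw [hv, map_sum]
    apply Finset.sum_eq_zero
    intro i hi
    rw [map_smul]
    simp only [hbb]
    rw [map_smul, map_sum, Finset.sum_eq_zero, smul_zero, smul_zero]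
    intro j hj
    apply hcon j
    have h1 := (Finset.mem_Ico.1 hj).2
    have h2 : k (i + 1) ≤ k R := D.k_mono.monotone (Finset.mem_range.1 hi)
    omega
  refine ⟨v, q (k R), ⟨?_, ?_, ?_, ?_, ?_⟩, ?_⟩
  · -- value of f
    have h1 : ∀ i, δ ≤ f (bb i) := by
      intro i
      simp only [hbb]
      have hpos := D.sz_pos i
      rw [map_smul, map_sum, smul_eq_mul, one_div, ← div_eq_inv_mul, le_div_iff₀ hpos]
      have h2 : ∑ j ∈ Finset.Ico (k i) (k (i + 1)), δ ≤
          ∑ j ∈ Finset.Ico (k i) (k (i + 1)), f (b j) :=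
        Finset.sum_le_sum fun j _ => (hg j).fv
      rw [Finset.sum_const, nsmul_eq_mul, D.card_Ico] at h2
      linarith
    rw [hv, map_sum]
    calc δ = ∑ i ∈ Finset.range R, (1 / (R : ℝ)) * δ := by
          rw [← Finset.sum_mul, Finset.sum_const, Finset.card_range, nsmul_eq_mul,
            mul_one_div_cancel hRpos.ne', one_mul]
      _ ≤ ∑ i ∈ Finset.range R, f ((1 / (R : ℝ)) • bb i) := by
          apply Finset.sum_le_sum
          intro i _
          rw [map_smul, smul_eq_mul]
          exact mul_le_mul_of_nonneg_left (h1 i) (by positivity)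
  · intro n hn
    obtain ⟨j, -, hj⟩ := hsupp n hn
    have h1 := (hg j).lo n hj
    have h2 := hq1 j
    have h3 : q j ≤ q j ^ 2 := by nlinarith
    omega
  · intro n hn
    obtain ⟨j, hj1, hj⟩ := hsupp n hn
    have h1 : n ≤ q (j + 1) := by
      rw [hqs]
      exact ((hg j).hi n hj).trans (le_max_right _ _)
    exact h1.trans (D.q_mono hj1)
  · intro G
    refine (key G).trans ?_
    calc ∑ i ∈ Finset.range R, (1 / (R : ℝ)) * avg (fun j n => |co n (b j)|) k G i
        ≤ ∑ i ∈ Finset.range R, (1 / (R : ℝ)) * 1 := by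
          apply Finset.sum_le_sum
          intro i _
          apply mul_le_mul_of_nonneg_left _ (by positivity)
          unfold avg
          rw [div_le_iff₀ (D.sz_pos i)]
          calc ∑ j ∈ Finset.Ico (k i) (k (i + 1)), ∑ n ∈ G, |co n (b j)|
              ≤ ∑ j ∈ Finset.Ico (k i) (k (i + 1)), (1:ℝ) :=
                Finset.sum_le_sum fun j _ => (hg j).l1 G
            _ = 1 * ((k (i + 1) : ℝ) - k i) := by
                rw [Finset.sum_const, nsmul_eq_mul, D.card_Ico, mul_comm]
      _ ≤ 1 := by simpa using hsumR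
  · intro F hF
    obtain ⟨i0, hi0⟩ := D.cap1 hF
    refine (key F).trans ((wsum_le (κ := 1 / (R : ℝ)) (Λ := 1) (fun i => by positivity)
      (fun i => le_rfl) hsumR hδ1 hη.le hi0).trans ?_)
    apply le_of_eq
    ring
  · intro G hG
    obtain ⟨i0, hi0⟩ := D.cap2 hG
    refine (key G).trans ((wsum_le (κ := 1 / (R : ℝ)) (Λ := 1) (fun i => by positivity)
      (fun i => le_rfl) hsumR (by norm_num) (by positivity) hi0).trans ?_)
    apply le_of_eq
    ring

/-- A functional cannot be large on infinitely many unit vectors. -/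
lemma not_large (f : X →L[ℝ] ℝ) {δ : ℝ} (hδ : 0 < δ) (N : Set ℕ)
    (hN : ∀ a, ∃ n ∈ N, a < n) (hf : ∀ n ∈ N, δ ≤ f (ug n)) : False := by
  have H0 : ∀ a, ∃ v Q, Good f δ v a Q 1 := by
    intro a
    obtain ⟨n, hn, han⟩ := hN a
    have hl1 : ∀ G : Finset ℕ, ∑ m ∈ G, |co m (ug n)| ≤ 1 := by
      intro G
      calc ∑ m ∈ G, |co m (ug n)| ≤ ∑ m ∈ G, (if m = n then (1:ℝ) else 0) := by
            apply Finset.sum_le_sum
            intro m _
            rw [co_ug]
            by_cases h : m = n
            · subst h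
              rw [if_pos rfl]
              split_ifs <;> simp
            · rw [if_neg (fun h' => h h'.1.symm), if_neg h, abs_zero]
        _ ≤ 1 := by
            rw [Finset.sum_ite_eq']
            split_ifs
            · exact le_rfl
            · exact zero_le_one
    have hne : ∀ m, co m (ug n) ≠ 0 → m = n := by
      intro m hm
      rw [co_ug] at hm
      by_contra h
      exact hm (if_neg (fun h' => h h'.1.symm))
    refine ⟨ug n, n, hf n hn, ?_, ?_, hl1, fun F _ => hl1 F⟩
    · intro m hm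
      rw [hne m hm]; exact han
    · intro m hm
      exact (hne m hm).le
  -- choose the parameters
  set ε : ℝ := δ / (8 * (‖f‖ + 1)) with hε
  have hfp : 0 < ‖f‖ + 1 := by have := norm_nonneg f; linarith
  have hεp : 0 < ε := by positivity
  obtain ⟨R0, hR0⟩ := exists_nat_one_div_lt hεp
  have hR1 : 1 ≤ R0 + 1 := by omega
  have hRε : 1 / ((R0 + 1 : ℕ) : ℝ) ≤ ε := by
    push_cast
    exact hR0.le
  have H1 : ∀ a, ∃ v Q, Good f δ v a Q (2 * ε) := by
    intro a
    obtain ⟨v, Q, hg, -⟩ := step_up H0 hR1 hεp a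
    refine ⟨v, Q, hg.fv, hg.lo, hg.hi, hg.l1, fun F hF => (hg.s1 F hF).trans ?_⟩
    linarith
  obtain ⟨v, Q, hg, hg2⟩ := step_up H1 hR1 hεp 0
  have hR0' : (0:ℝ) < ((R0 + 1 : ℕ) : ℝ) := by positivity
  have hnorm : ‖v‖ ≤ 3 * ε := by
    apply norm_le_of _ (by positivity)
    · intro G hG
      refine (hg.s1 G hG).trans ?_
      have h1 : 2 * ε / ((R0 + 1 : ℕ) : ℝ) ≤ 2 * ε := by
        apply div_le_self (by positivity)
        push_cast
        have : (0:ℝ) ≤ R0 := Nat.cast_nonneg _
        linarith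
      linarith
    · intro G hG
      refine (hg2 G hG).trans ?_
      have h1 : 2 / ((R0 + 1 : ℕ) : ℝ) = 2 * (1 / ((R0 + 1 : ℕ) : ℝ)) := by ring
      rw [h1]
      linarith
  have h1 : f v ≤ ‖f‖ * ‖v‖ := (le_abs_self _).trans (f.le_opNorm v)
  have h2 : ‖f‖ * ‖v‖ ≤ (‖f‖ + 1) * (3 * ε) := by
    apply mul_le_mul _ hnorm (norm_nonneg _) hfp.le
    linarith
  have h3 : (‖f‖ + 1) * (3 * ε) = 3 * δ / 8 := by
    rw [hε]
    field_simp
  have h4 := hg.fv
  linarith

/-- The basis is weakly null. -/
lemma ug_weak : WeaklyConvergent ug := by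
  refine ⟨0, fun f => ?_⟩
  rw [map_zero, Metric.tendsto_atTop]
  intro δ hδ
  by_contra hcon
  push Not at hcon
  have hlarge : ∀ a, ∃ n, a ≤ n ∧ δ ≤ |f (ug n)| := by
    intro a
    obtain ⟨n, hn, hd⟩ := hcon a
    exact ⟨n, hn, by rwa [Real.dist_eq, sub_zero] at hd⟩
  by_cases hp : ∀ a, ∃ n, a < n ∧ δ ≤ f (ug n)
  · exact not_large f hδ {n | δ ≤ f (ug n)}
      (fun a => by obtain ⟨n, h1, h2⟩ := hp a; exact ⟨n, h2, h1⟩) (fun n hn => hn)
  · push Not at hp
    obtain ⟨a0, ha0⟩ := hp
    refine not_large (-f) hδ {n | δ ≤ -f (ug n)} ?_ (fun n hn => hn)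
    intro a
    obtain ⟨n, h1, h2⟩ := hlarge (max a a0 + 1)
    have h3 := le_max_left a a0
    have h4 := le_max_right a a0
    refine ⟨n, ?_, by omega⟩
    have h5 := ha0 n (by omega)
    change δ ≤ -f (ug n)
    rcases abs_cases (f (ug n)) with ⟨h6, -⟩ | ⟨h6, -⟩
    · rw [h6] at h2; linarith
    · rw [h6] at h2; exact h2

/-- The lower bound. -/
lemma lower (M : ℕ → ℕ) (hM : StrictMono M) (hM0 : 1 ≤ M 0) (t : ℕ) :
    (1 - 1 / (2:ℝ) ^ t) * (1 - t / (2:ℝ) ^ t) ≤
      ‖ces (fun i => comb (repAvg 1 M i) ug) (2 ^ t - 1) -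
        ces (fun i => comb (repAvg 1 M i) ug) (2 ^ (2 * t) - 1)‖ := by
  classical
  set y : ℕ → X := fun i => comb (repAvg 1 M i) ug with hy
  set k : ℕ → ℕ := start (zeroAvg M) with hk
  have hk1 : ∀ i, k (i + 1) = k i + M (k i) := fun i => start_zeroAvg M i
  have hMpos : ∀ j, 1 ≤ M j := fun j => hM0.trans (hM.monotone (Nat.zero_le j))
  have hMadd : ∀ a b, M a + b ≤ M (a + b) := by
    intro a b
    induction b with
    | zero => exact le_rfl
    | succ b ih =>
      have := hM (show a + b < a + (b + 1) by omega)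
      omega
  have hMk : ∀ i, 2 ^ i ≤ M (k i) := by
    intro i
    induction i with
    | zero => simpa using hMpos (k 0)
    | succ i ih =>
      have h1 := hMadd (k i) (M (k i))
      rw [hk1 i, pow_succ]
      omega
  have hkmono : StrictMono k := strictMono_nat_of_lt_succ fun i => by
    have h1 := hk1 i
    have h2 := hMpos (k i)
    omega
  set K := 2 ^ t - 1 with hK
  set L := 2 ^ (2 * t) - 1 with hL
  have hp1 : 1 ≤ 2 ^ t := Nat.one_le_two_pow
  have hp2 : 1 ≤ 2 ^ (2 * t) := Nat.one_le_two_pow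
  have hKL : 2 ^ t ≤ 2 ^ (2 * t) := Nat.pow_le_pow_right (by norm_num) (by omega)
  have hK1 : K + 1 = 2 ^ t := by omega
  have hL1 : L + 1 = 2 ^ (2 * t) := by omega
  -- the sets
  set G : Finset ℕ := (Finset.Ico (k (2 * t)) (k (L + 1))).image M with hG
  set H : Finset ℕ := (Finset.Ico (k (K + 1)) (k (L + 1))).image M with hH
  have hmemG : ∀ j, M j ∈ G ↔ k (2 * t) ≤ j ∧ j < k (L + 1) := by
    intro j
    rw [hG, Finset.mem_image]
    constructor
    · rintro ⟨j', hj', he⟩
      rw [hM.injective he] at hj'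
      exact Finset.mem_Ico.1 hj'
    · intro h
      exact ⟨j, Finset.mem_Ico.2 h, rfl⟩
  have hmemH : ∀ j, M j ∈ H ↔ k (K + 1) ≤ j ∧ j < k (L + 1) := by
    intro j
    rw [hH, Finset.mem_image]
    constructor
    · rintro ⟨j', hj', he⟩
      rw [hM.injective he] at hj'
      exact Finset.mem_Ico.1 hj'
    · intro h
      exact ⟨j, Finset.mem_Ico.2 h, rfl⟩
  have hS2 : S2 G := by
    refine ⟨(Finset.Ico (2 * t) (L + 1)).image (fun i => (Finset.Ico (k i) (k (i + 1))).image M),
      ?_, ?_, ?_⟩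
    · intro F hF
      obtain ⟨i, -, rfl⟩ := Finset.mem_image.1 hF
      intro n hn
      obtain ⟨j, hj, rfl⟩ := Finset.mem_image.1 hn
      refine Finset.card_image_le.trans ?_
      rw [Nat.card_Ico, hk1 i, Nat.add_sub_cancel_left]
      exact hM.monotone (Finset.mem_Ico.1 hj).1
    · intro n hn
      obtain ⟨j, hj, rfl⟩ := Finset.mem_image.1 hn
      obtain ⟨h1, h2⟩ := Finset.mem_Ico.1 hj
      have hex : ∃ i, j < k (i + 1) := ⟨L, h2⟩
      have h3 := Nat.find_spec hex
      have h4 : Nat.find hex ≤ L := Nat.find_min' hex h2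
      have h5 : k (Nat.find hex) ≤ j := by
        rcases Nat.eq_zero_or_pos (Nat.find hex) with h | h
        · rw [h]; exact Nat.zero_le _
        · have := Nat.find_min hex (m := Nat.find hex - 1) (by omega)
          rw [show Nat.find hex - 1 + 1 = Nat.find hex by omega] at this
          omega
      have h6 : 2 * t ≤ Nat.find hex := by
        by_contra hlt
        have h7 : k (Nat.find hex + 1) ≤ k (2 * t) := hkmono.monotone (by omega)
        omega
      rw [Finset.mem_biUnion]
      refine ⟨_, Finset.mem_image_of_mem _ (Finset.mem_Ico.2 ⟨h6, by omega⟩), ?_⟩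
      exact Finset.mem_image_of_mem M (Finset.mem_Ico.2 ⟨h5, h3⟩)
    · intro n hn
      obtain ⟨j, hj, rfl⟩ := Finset.mem_image.1 hn
      refine Finset.card_image_le.trans ?_
      rw [Nat.card_Ico]
      have h1 := hMk (2 * t)
      have h2 := hM.monotone (Finset.mem_Ico.1 hj).1
      omega
  -- the functional
  set φ : X →ₗ[ℝ] ℝ := ∑ n ∈ G, sg H n • (co n : X →L[ℝ] ℝ).toLinearMap with hφ
  have hφa : ∀ x, φ x = ∑ n ∈ G, sg H n * co n x := by
    intro x
    rw [hφ]
    simp
  have hφn : ∀ x, φ x ≤ 2 * ‖x‖ := by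
    intro x
    rw [hφa]
    refine le_trans ?_ (sum2 x hS2)
    apply Finset.sum_le_sum
    intro n _
    refine (le_abs_self _).trans ?_
    rw [abs_mul, abs_sg, one_mul]
  have hφu : ∀ j, φ (ug (M j)) = if M j ∈ G then sg H (M j) else 0 := by
    intro j
    rw [hφa]
    have h1 : ∀ n ∈ G, sg H n * co n (ug (M j)) = if n = M j then sg H (M j) else 0 := by
      intro n _
      rw [co_ug]
      by_cases h : n = M j
      · subst h
        rw [if_pos ⟨rfl, hMpos j⟩, if_pos rfl, mul_one]
      · rw [if_neg (fun h' => h h'.1.symm), if_neg h, mul_zero]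
    rw [Finset.sum_congr rfl h1, Finset.sum_ite_eq']
  have hφy : ∀ i, i < L + 1 → φ (y i) = if 2 * t ≤ i then (if i < K + 1 then 1 else -1) else 0 := by
    intro i hi
    have hpos : (0:ℝ) < M (k i) := by exact_mod_cast (hMpos (k i))
    simp only [hy]
    rw [comb_one, map_smul, map_sum]
    have hval : ∀ m ∈ Finset.range (M (k i)), φ (ug (M (k i + m))) =
        if 2 * t ≤ i then (if i < K + 1 then 1 else -1) else 0 := by
      intro m hm
      rw [Finset.mem_range] at hm
      rw [hφu]
      have h1 : k i + m < k (i + 1) := by rw [hk1 i]; omega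
      by_cases h2 : 2 * t ≤ i
      · have h3 : k (2 * t) ≤ k i + m := (hkmono.monotone h2).trans (Nat.le_add_right _ _)
        have h4 : k (i + 1) ≤ k (L + 1) := hkmono.monotone hi
        rw [if_pos h2, if_pos ((hmemG _).2 ⟨h3, by omega⟩)]
        unfold sg
        by_cases h5 : i < K + 1
        · rw [if_pos h5, if_neg]
          intro h6
          have h7 := ((hmemH _).1 h6).1
          have h8 : k (i + 1) ≤ k (K + 1) := hkmono.monotone h5
          omega
        · rw [if_neg h5, if_pos]
          rw [hmemH]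
          exact ⟨(hkmono.monotone (not_lt.1 h5)).trans (Nat.le_add_right _ _), by omega⟩
      · rw [if_neg h2, if_neg]
        intro h6
        have h7 := ((hmemG _).1 h6).1
        have h8 : k (i + 1) ≤ k (2 * t) := hkmono.monotone (by omega)
        omega
    rw [Finset.sum_congr rfl hval, Finset.sum_const, Finset.card_range, nsmul_eq_mul, smul_eq_mul,
      ← mul_assoc, one_div, inv_mul_cancel₀ hpos.ne', one_mul]
  have hTpos : (0:ℝ) < (2:ℝ) ^ t := by positivity
  set T : ℝ := (2:ℝ) ^ t with hT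
  have hKr : (K : ℝ) + 1 = T := by
    have : ((K + 1 : ℕ) : ℝ) = ((2 ^ t : ℕ) : ℝ) := by rw [hK1]
    push_cast at this
    exact this
  have hLr : (L : ℝ) + 1 = T ^ 2 := by
    have : ((L + 1 : ℕ) : ℝ) = ((2 ^ (2 * t) : ℕ) : ℝ) := by rw [hL1]
    push_cast at this
    rw [this, hT, ← pow_mul, mul_comm]
  have h2t : 2 * t ≤ K + 1 ∨ K + 1 < 2 * t := le_or_gt _ _
  -- evaluate
  have heval : φ (ces y K - ces y L) = ∑ i ∈ Finset.range (L + 1), (cw K i - cw L i) *
      (if 2 * t ≤ i then (if i < K + 1 then 1 else -1) else 0) := by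
    have hKR : K + 1 ≤ L + 1 := by omega
    rw [ces_eq y hKR, ces_eq y (le_refl (L + 1)), ← Finset.sum_sub_distrib, map_sum]
    apply Finset.sum_congr rfl
    intro i hi
    rw [← sub_smul, map_smul, smul_eq_mul, hφy i (Finset.mem_range.1 hi)]
  have hlow : 2 * ((1 - 1 / T) * (1 - t / T)) ≤ φ (ces y K - ces y L) := by
    rw [heval]
    have hT1 : 1 ≤ T := by rw [hT]; exact one_le_pow₀ (by norm_num)
    -- pointwise lower bound
    have hpt : ∀ i ∈ Finset.range (L + 1), (cw K i - cw L i) *
        (if 2 * t ≤ i then (if i < K + 1 then (1:ℝ) else -1) else 0) =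
        (if i < K + 1 then (1 / T - 1 / T ^ 2) else 1 / T ^ 2) -
        (if i < 2 * t then (if i < K + 1 then (1 / T - 1 / T ^ 2) else 1 / T ^ 2) else 0) := by
      intro i hi
      have hi' := Finset.mem_range.1 hi
      unfold cw
      rw [if_pos hi', hKr, hLr]
      by_cases h1 : i < K + 1
      · simp only [if_pos h1]
        by_cases h2 : 2 * t ≤ i
        · rw [if_pos h2, if_neg (not_lt.2 h2)]; ring
        · rw [if_neg h2, if_pos (not_le.1 h2)]; ring
      · simp only [if_neg h1]
        by_cases h2 : 2 * t ≤ i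
        · rw [if_pos h2, if_neg (not_lt.2 h2)]; ring
        · rw [if_neg h2, if_pos (not_le.1 h2)]; ring
    rw [Finset.sum_congr rfl hpt, Finset.sum_sub_distrib]
    have hs1 : ∑ i ∈ Finset.range (L + 1), (if i < K + 1 then (1 / T - 1 / T ^ 2) else 1 / T ^ 2)
        = 2 * (1 - 1 / T) := by
      have e1 : ∀ i ∈ Finset.range (L + 1),
          (if i < K + 1 then (1 / T - 1 / T ^ 2) else 1 / T ^ 2) =
          1 / T ^ 2 + (if i < K + 1 then (1 / T - 2 / T ^ 2) else 0) := by
        intro i _
        split_ifs <;> ring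
      rw [Finset.sum_congr rfl e1, Finset.sum_add_distrib, Finset.sum_const, Finset.card_range,
        nsmul_eq_mul, ← Finset.sum_filter]
      have e2 : (Finset.range (L + 1)).filter (fun i => i < K + 1) = Finset.range (K + 1) := by
        ext i
        simp only [Finset.mem_filter, Finset.mem_range]
        omega
      rw [e2, Finset.sum_const, Finset.card_range, nsmul_eq_mul]
      push_cast
      rw [hKr, hLr]
      field_simp
      ring
    have hs2 : ∑ i ∈ Finset.range (L + 1), (if i < 2 * t then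
        (if i < K + 1 then (1 / T - 1 / T ^ 2) else 1 / T ^ 2) else 0) ≤
        2 * t * (1 / T - 1 / T ^ 2) ∨ T ≤ 1 := by
      by_cases hT2 : T ≤ 1
      · exact Or.inr hT2
      left
      have hT2' : 2 ≤ T := by
        rcases Nat.eq_zero_or_pos t with h | h
        · rw [hT, h] at hT2; simp at hT2
        · rw [hT]
          calc (2:ℝ) = 2 ^ 1 := by norm_num
            _ ≤ 2 ^ t := pow_le_pow_right₀ (by norm_num) h
      have hbd : 1 / T ^ 2 ≤ 1 / T - 1 / T ^ 2 := by
        have : 1 / T - 1 / T ^ 2 - 1 / T ^ 2 = (T - 2) / T ^ 2 := by field_simp; ring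
        have h2 : 0 ≤ (T - 2) / T ^ 2 := div_nonneg (by linarith) (by positivity)
        linarith
      have hnn : 0 ≤ 1 / T - 1 / T ^ 2 := le_trans (by positivity) hbd
      rw [← Finset.sum_filter]
      calc ∑ i ∈ (Finset.range (L + 1)).filter (fun i => i < 2 * t),
            (if i < K + 1 then (1 / T - 1 / T ^ 2) else 1 / T ^ 2)
          ≤ ∑ i ∈ (Finset.range (L + 1)).filter (fun i => i < 2 * t), (1 / T - 1 / T ^ 2) := by
            apply Finset.sum_le_sum
            intro i _
            split_ifs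
            · exact le_rfl
            · exact hbd
        _ ≤ 2 * t * (1 / T - 1 / T ^ 2) := by
            rw [Finset.sum_const, nsmul_eq_mul]
            apply mul_le_mul_of_nonneg_right _ hnn
            have h1 : ((Finset.range (L + 1)).filter (fun i => i < 2 * t)).card ≤ 2 * t := by
              calc ((Finset.range (L + 1)).filter (fun i => i < 2 * t)).card
                  ≤ (Finset.range (2 * t)).card := by
                    apply Finset.card_le_card
                    intro i hi
                    exact Finset.mem_range.2 (Finset.mem_filter.1 hi).2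
                _ = 2 * t := Finset.card_range _
            exact_mod_cast h1
    rw [hs1]
    rcases hs2 with h | h
    · have e3 : 2 * ((1 - 1 / T) * (1 - t / T)) = 2 * (1 - 1 / T) - 2 * t * (1 / T - 1 / T ^ 2) := by
        field_simp
      linarith
    · have hT' : T = 1 := le_antisymm h hT1
      have ht0 : t = 0 := by
        by_contra hne
        have : (2:ℝ) ≤ T := by
          rw [hT]
          calc (2:ℝ) = 2 ^ 1 := by norm_num
            _ ≤ 2 ^ t := pow_le_pow_right₀ (by norm_num) (Nat.one_le_iff_ne_zero.2 hne)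
        linarith
      subst ht0
      rw [hT']
      simp
  have := hφn (ces y K - ces y L)
  linarith

end Pool.Agent.V1190.BS
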