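import Mathlib

/-! A renorming of the Schreier space of order two. -/

open Filter Topology
open scoped ENNReal

namespace Pool.Agent.V1190.BS

/-- Schreier sets. -/
def S1 (F : Finset ℕ) : Prop := ∀ i ∈ F, F.card ≤ i

/-- Schreier sets of order two. -/
def S2 (G : Finset ℕ) : Prop :=
  ∃ A : Finset (Finset ℕ), (∀ F ∈ A, S1 F) ∧ G ⊆ A.biUnion id ∧ ∀ i ∈ G, A.card ≤ i

lemma S1.mono {F F' : Finset ℕ} (h : S1 F) (hs : F' ⊆ F) : S1 F' :=
  fun i hi => (Finset.card_le_card hs).trans (h i (hs hi))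

lemma S2.mono {F F' : Finset ℕ} (h : S2 F) (hs : F' ⊆ F) : S2 F' := by
  obtain ⟨A, h1, h2, h3⟩ := h
  exact ⟨A, h1, hs.trans h2, fun i hi => h3 i (hs hi)⟩

lemma S1.pos {F : Finset ℕ} (h : S1 F) {i : ℕ} (hi : i ∈ F) : 1 ≤ i :=
  (Finset.card_pos.2 ⟨i, hi⟩).trans_le (h i hi)

lemma S1.toS2 {F : Finset ℕ} (h : S1 F) : S2 F := by
  refine ⟨{F}, ?_, ?_, ?_⟩
  · intro F' hF'
    rw [Finset.mem_singleton.1 hF']
    exact h
  · simp
  · intro i hi
    rw [Finset.card_singleton]
    exact h.pos hi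

lemma S2.pos {F : Finset ℕ} (h : S2 F) {i : ℕ} (hi : i ∈ F) : 1 ≤ i := by
  obtain ⟨A, h1, h2, h3⟩ := h
  obtain ⟨F', hF', hi'⟩ := Finset.mem_biUnion.1 (h2 hi)
  exact (h1 F' hF').pos hi'

lemma S1_singleton {n : ℕ} (hn : 1 ≤ n) : S1 {n} := by
  intro i hi
  rw [Finset.mem_singleton.1 hi, Finset.card_singleton]
  exact hn

open Classical in
/-- Weights. -/
noncomputable def w (G : Finset ℕ) : ℝ := if S1 G then 1 else if S2 G then 1 / 2 else 0

lemma w_nonneg (G : Finset ℕ) : 0 ≤ w G := by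
  unfold w
  split_ifs <;> norm_num

lemma w_le (G : Finset ℕ) : w G ≤ 1 := by
  unfold w
  split_ifs <;> norm_num

lemma w_S1 {G : Finset ℕ} (h : S1 G) : w G = 1 := by
  unfold w
  rw [if_pos h]

lemma w_S2 {G : Finset ℕ} (h : S2 G) : 1 / 2 ≤ w G := by
  unfold w
  split_ifs
  · norm_num
  · exact le_rfl

lemma w_zero {G : Finset ℕ} (h : 0 ∈ G) : w G = 0 := by
  unfold w
  rw [if_neg, if_neg]
  · intro h2
    exact absurd (h2.pos h) (by norm_num)
  · intro h2
    exact absurd (h2.pos h) (by norm_num)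

/-- Index set. -/
abbrev Ix := Finset ℕ × Finset ℕ

/-- Signs. -/
def sg (H : Finset ℕ) (n : ℕ) : ℝ := if n ∈ H then -1 else 1

lemma abs_sg (H : Finset ℕ) (n : ℕ) : |sg H n| = 1 := by
  unfold sg
  split_ifs <;> simp

lemma sg_empty (n : ℕ) : sg ∅ n = 1 := by
  unfold sg
  simp

/-- The ambient space. -/
abbrev E := lp (fun _ : Ix => ℝ) ∞

/-- Unit vector as a function. -/
noncomputable def uf (n : ℕ) (p : Ix) : ℝ := w p.1 * (if n ∈ p.1 then sg p.2 n else 0)

lemma abs_uf (n : ℕ) (p : Ix) : |uf n p| ≤ 1 := by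
  unfold uf
  rw [abs_mul, abs_of_nonneg (w_nonneg _)]
  split_ifs
  · rw [abs_sg, mul_one]; exact w_le _
  · rw [abs_zero, mul_zero]; exact zero_le_one

/-- Unit vector. -/
noncomputable def u (n : ℕ) : E :=
  ⟨uf n, memℓp_infty ⟨1, by rintro _ ⟨p, rfl⟩; exact abs_uf n p⟩⟩

lemma u_apply (n : ℕ) (p : Ix) : (u n : E) p = uf n p := rfl

/-- The space. -/
noncomputable abbrev X : Submodule ℝ E := (Submodule.span ℝ (Set.range u)).topologicalClosure

/-- Evaluation. -/
noncomputable def ev (p : Ix) : E →L[ℝ] ℝ :=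
  LinearMap.mkContinuous
    { toFun := fun f => f p
      map_add' := fun f g => by simp
      map_smul' := fun c f => by simp } 1
    (fun f => by rw [one_mul]; exact lp.norm_apply_le_norm (by simp) f p)

lemma ev_apply (p : Ix) (f : E) : ev p f = f p := rfl

/-- Coordinate functionals. -/
noncomputable def co (n : ℕ) : X →L[ℝ] ℝ := (ev ({n}, ∅)).comp X.subtypeL

lemma co_apply (n : ℕ) (x : X) : co n x = (x : E) ({n}, ∅) := rfl

/-- Unit vectors in the space. -/
noncomputable def ug (n : ℕ) : X :=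
  ⟨u n, Submodule.le_topologicalClosure _ (Submodule.subset_span ⟨n, rfl⟩)⟩

lemma co_ug (n m : ℕ) : co n (ug m) = if m = n ∧ 1 ≤ n then 1 else 0 := by
  rw [co_apply]
  change uf m ({n}, ∅) = _
  unfold uf
  simp only [Finset.mem_singleton, sg_empty]
  by_cases h : m = n
  · subst h
    by_cases h1 : 1 ≤ m
    · rw [w_S1 (S1_singleton h1)]
      simp [h1]
    · have h0 : m = 0 := by omega
      subst h0
      rw [w_zero (Finset.mem_singleton_self _)]
      simp
  · simp [h]

/-- The representation of vectors by their coordinates. -/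
lemma rep (x : X) (p : Ix) : (x : E) p = w p.1 * ∑ i ∈ p.1, sg p.2 i * co i x := by
  have hclosed : IsClosed {f : E | f p = w p.1 * ∑ i ∈ p.1, sg p.2 i * f ({i}, ∅)} := by
    have h1 : Continuous fun f : E => ev p f := (ev p).continuous
    have h2 : Continuous fun f : E => w p.1 * ∑ i ∈ p.1, sg p.2 i * ev ({i}, ∅) f := by
      apply continuous_const.mul
      apply continuous_finsetSum
      intro i _
      exact continuous_const.mul (ev ({i}, ∅)).continuous
    exact isClosed_eq h1 h2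
  have hspan : ((Submodule.span ℝ (Set.range u) : Submodule ℝ E) : Set E) ⊆
      {f : E | f p = w p.1 * ∑ i ∈ p.1, sg p.2 i * f ({i}, ∅)} := by
    intro f hf
    induction hf using Submodule.span_induction with
    | mem f hf =>
      obtain ⟨n, rfl⟩ := hf
      simp only [Set.mem_ofPred_eq, u_apply]
      by_cases h0 : 0 ∈ p.1
      · rw [uf, w_zero h0]
        simp
      · have h1 : ∑ i ∈ p.1, sg p.2 i * uf n ({i}, ∅) = if n ∈ p.1 then sg p.2 n else 0 := by
          have h2 : ∀ i ∈ p.1, sg p.2 i * uf n ({i}, ∅) = if i = n then sg p.2 n else 0 := by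
            intro i hi
            have hi1 : 1 ≤ i := by
              rcases Nat.eq_zero_or_pos i with h | h
              · rw [h] at hi; exact absurd hi h0
              · exact h
            unfold uf
            simp only [Finset.mem_singleton, sg_empty, w_S1 (S1_singleton hi1), one_mul]
            by_cases h : i = n
            · subst h; simp
            · rw [if_neg h, if_neg (Ne.symm h), mul_zero]
          rw [Finset.sum_congr rfl h2, Finset.sum_ite_eq']
        rw [h1]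
        rfl
    | zero => simp
    | add f g _ _ hf hg =>
      simp only [Set.mem_ofPred_eq] at hf hg ⊢
      simp only [lp.coeFn_add, Pi.add_apply, hf, hg, mul_add, Finset.sum_add_distrib]
    | smul c f _ hf =>
      simp only [Set.mem_ofPred_eq] at hf ⊢
      simp only [lp.coeFn_smul, Pi.smul_apply, smul_eq_mul, hf]
      rw [Finset.mul_sum, Finset.mul_sum, Finset.mul_sum]
      apply Finset.sum_congr rfl
      intro i _
      ring
  have hx : (x : E) ∈ closure ((Submodule.span ℝ (Set.range u) : Submodule ℝ E) : Set E) := x.2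
  exact (closure_minimal hspan hclosed) hx

lemma norm_ge_w (x : X) (G : Finset ℕ) : w G * ∑ i ∈ G, |co i x| ≤ ‖x‖ := by
  classical
  set H := G.filter (fun i => co i x < 0) with hH
  have h1 : ∀ i ∈ G, sg H i * co i x = |co i x| := by
    intro i hi
    unfold sg
    by_cases h : co i x < 0
    · have hm : i ∈ H := Finset.mem_filter.2 ⟨hi, h⟩
      rw [if_pos hm, abs_of_neg h]; ring
    · have hm : i ∉ H := fun h' => h (Finset.mem_filter.1 h').2
      rw [if_neg hm, abs_of_nonneg (not_lt.1 h)]; ring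
  have h2 := rep x (G, H)
  rw [show (∑ i ∈ (G, H).1, sg (G, H).2 i * co i x) = ∑ i ∈ G, |co i x| from
    Finset.sum_congr rfl h1] at h2
  have h3 : ‖(x : E) (G, H)‖ ≤ ‖(x : E)‖ := lp.norm_apply_le_norm (by simp) (x : E) (G, H)
  rw [h2] at h3
  exact (le_abs_self _).trans h3

lemma sum1 (x : X) {G : Finset ℕ} (h : S1 G) : ∑ i ∈ G, |co i x| ≤ ‖x‖ := by
  have := norm_ge_w x G
  rwa [w_S1 h, one_mul] at this

lemma sum2 (x : X) {G : Finset ℕ} (h : S2 G) : ∑ i ∈ G, |co i x| ≤ 2 * ‖x‖ := by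
  have h1 := norm_ge_w x G
  have h2 : 1 / 2 * ∑ i ∈ G, |co i x| ≤ w G * ∑ i ∈ G, |co i x| :=
    mul_le_mul_of_nonneg_right (w_S2 h) (Finset.sum_nonneg fun i _ => abs_nonneg _)
  linarith

lemma norm_le_of (x : X) {C : ℝ} (hC : 0 ≤ C) (h1 : ∀ G, S1 G → ∑ i ∈ G, |co i x| ≤ C)
    (h2 : ∀ G, S2 G → ∑ i ∈ G, |co i x| ≤ 2 * C) : ‖x‖ ≤ C := by
  change ‖(x : E)‖ ≤ C
  apply lp.norm_le_of_forall_le hC
  rintro ⟨G, H⟩
  rw [rep x (G, H), Real.norm_eq_abs, abs_mul, abs_of_nonneg (w_nonneg _)]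
  have h3 : |∑ i ∈ G, sg H i * co i x| ≤ ∑ i ∈ G, |co i x| := by
    refine (Finset.abs_sum_le_sum_abs _ _).trans (le_of_eq ?_)
    apply Finset.sum_congr rfl
    intro i _
    rw [abs_mul, abs_sg, one_mul]
  have h0 : 0 ≤ ∑ i ∈ G, |co i x| := Finset.sum_nonneg fun i _ => abs_nonneg _
  refine (mul_le_mul_of_nonneg_left h3 (w_nonneg _)).trans ?_
  unfold w
  split_ifs with ha hb
  · rw [one_mul]; exact h1 G ha
  · have := h2 G hb
    linarith
  · rw [zero_mul]; exact hC

lemma co_zero_eq (x : X) : co 0 x = 0 := by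
  rw [co_apply, rep x ({0}, ∅), w_zero (Finset.mem_singleton_self _), zero_mul]

lemma abs_co_le (x : X) (n : ℕ) : |co n x| ≤ ‖x‖ := by
  rcases Nat.eq_zero_or_pos n with h | h
  · rw [h, co_zero_eq, abs_zero]; exact norm_nonneg _
  · have := sum1 x (S1_singleton h)
    rwa [Finset.sum_singleton] at this

/-- Coordinate projections. -/
noncomputable def Pr (Q : Finset ℕ) (x : X) : X := ∑ i ∈ Q, co i x • ug i

lemma co_Pr (Q : Finset ℕ) (x : X) (n : ℕ) : co n (Pr Q x) = if n ∈ Q then co n x else 0 := by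
  unfold Pr
  rw [map_sum]
  simp only [map_smul, smul_eq_mul, co_ug]
  rcases Nat.eq_zero_or_pos n with h | h
  · subst h
    simp [co_zero_eq]
  · have h1 : ∀ i ∈ Q, co i x * (if i = n ∧ 1 ≤ n then (1:ℝ) else 0) =
        if i = n then co n x else 0 := by
      intro i _
      by_cases hi : i = n
      · subst hi
        have : 1 ≤ i := h
        simp [this]
      · simp [hi]
    rw [Finset.sum_congr rfl h1, Finset.sum_ite_eq']

lemma Pr_add (Q : Finset ℕ) (x y : X) : Pr Q (x + y) = Pr Q x + Pr Q y := by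
  unfold Pr
  rw [← Finset.sum_add_distrib]
  apply Finset.sum_congr rfl
  intro i _
  rw [map_add, add_smul]

lemma Pr_sub (Q : Finset ℕ) (x y : X) : Pr Q (x - y) = Pr Q x - Pr Q y := by
  unfold Pr
  rw [← Finset.sum_sub_distrib]
  apply Finset.sum_congr rfl
  intro i _
  rw [map_sub, sub_smul]

lemma Pr_smul (Q : Finset ℕ) (c : ℝ) (x : X) : Pr Q (c • x) = c • Pr Q x := by
  unfold Pr
  rw [Finset.smul_sum]
  apply Finset.sum_congr rfl
  intro i _
  rw [map_smul, smul_smul, smul_eq_mul]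

lemma norm_Pr_le (Q : Finset ℕ) (x : X) : ‖Pr Q x‖ ≤ ‖x‖ := by
  have h : ∀ G : Finset ℕ, ∑ i ∈ G, |co i (Pr Q x)| ≤ ∑ i ∈ G, |co i x| := by
    intro G
    apply Finset.sum_le_sum
    intro i _
    rw [co_Pr]
    split_ifs
    · exact le_rfl
    · rw [abs_zero]; exact abs_nonneg _
  apply norm_le_of _ (norm_nonneg _)
  · intro G hG
    exact (h G).trans (sum1 x hG)
  · intro G hG
    exact (h G).trans (sum2 x hG)

lemma norm_ug_le (n : ℕ) : ‖ug n‖ ≤ 1 := by
  change ‖u n‖ ≤ 1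
  exact lp.norm_le_of_forall_le zero_le_one fun p => abs_uf n p

/-- Tails are small. -/
lemma tail (x : X) {ε : ℝ} (hε : 0 < ε) :
    ∃ N : ℕ, ∀ Q : Finset ℕ, Finset.range N ⊆ Q → ‖x - Pr Q x‖ ≤ ε := by
  have hx : (x : E) ∈ closure ((Submodule.span ℝ (Set.range u) : Submodule ℝ E) : Set E) := x.2
  obtain ⟨v, hv, hvx⟩ := Metric.mem_closure_iff.1 hx (ε / 2) (by positivity)
  have hfix : ∀ v ∈ Submodule.span ℝ (Set.range u), ∃ N : ℕ, ∃ hv : v ∈ X,
      ∀ Q : Finset ℕ, Finset.range N ⊆ Q → Pr Q ⟨v, hv⟩ = ⟨v, hv⟩ := by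
    intro v hv
    induction hv using Submodule.span_induction with
    | mem f hf =>
      obtain ⟨n, rfl⟩ := hf
      refine ⟨n + 1, (ug n).2, fun Q hQ => ?_⟩
      change Pr Q (ug n) = ug n
      rcases Nat.eq_zero_or_pos n with h | h
      · subst h
        have h0 : ug 0 = 0 := by
          ext p
          change uf 0 p = 0
          unfold uf
          by_cases hp : 0 ∈ p.1
          · rw [w_zero hp, zero_mul]
          · rw [if_neg hp, mul_zero]
        rw [h0]
        unfold Pr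
        simp
      · unfold Pr
        have h1 : ∀ i ∈ Q, co i (ug n) • ug i = if i = n then ug n else 0 := by
          intro i _
          rw [co_ug]
          by_cases hi : n = i
          · subst hi
            have : 1 ≤ n := h
            simp [this]
          · rw [if_neg (fun h' => hi h'.1), if_neg (fun h' => hi h'.symm), zero_smul]
        rw [Finset.sum_congr rfl h1, Finset.sum_ite_eq', if_pos]
        exact hQ (Finset.mem_range.2 (Nat.lt_succ_self n))
    | zero =>
      refine ⟨0, X.zero_mem, fun Q _ => ?_⟩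
      change Pr Q (0 : X) = 0
      unfold Pr
      simp
    | add f g _ _ hf hg =>
      obtain ⟨N1, hf1, hf2⟩ := hf
      obtain ⟨N2, hg1, hg2⟩ := hg
      refine ⟨max N1 N2, X.add_mem hf1 hg1, fun Q hQ => ?_⟩
      have e1 := hf2 Q ((Finset.range_mono (le_max_left _ _)).trans hQ)
      have e2 := hg2 Q ((Finset.range_mono (le_max_right _ _)).trans hQ)
      change Pr Q ((⟨f, hf1⟩ : X) + ⟨g, hg1⟩) = (⟨f, hf1⟩ : X) + ⟨g, hg1⟩
      rw [Pr_add, e1, e2]
    | smul c f _ hf =>
      obtain ⟨N1, hf1, hf2⟩ := hf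
      refine ⟨N1, X.smul_mem c hf1, fun Q hQ => ?_⟩
      change Pr Q (c • (⟨f, hf1⟩ : X)) = c • (⟨f, hf1⟩ : X)
      rw [Pr_smul, hf2 Q hQ]
  obtain ⟨N, hvX, hN⟩ := hfix v hv
  refine ⟨N, fun Q hQ => ?_⟩
  have h1 : x - Pr Q x = (x - ⟨v, hvX⟩) - Pr Q (x - ⟨v, hvX⟩) := by
    rw [Pr_sub, hN Q hQ]
    abel
  rw [h1]
  have h2 : ‖x - ⟨v, hvX⟩‖ < ε / 2 := by
    change ‖(x : E) - v‖ < ε / 2
    rw [← dist_eq_norm]
    exact hvx
  have h3 := norm_Pr_le Q (x - ⟨v, hvX⟩)
  have h4 := norm_sub_le (x - ⟨v, hvX⟩) (Pr Q (x - ⟨v, hvX⟩))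
  linarith

end Pool.Agent.V1190.BS
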