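import Pool.Agent.V1190.BS.Cap
import Pool.Agent.V1190.BS.Defs

/-! The upper bound for the quantity of order one. -/

open Filter Topology
open scoped ENNReal

namespace Pool.Agent.V1190.BS

/-- Signed combinations of block averages. -/
lemma comb_bound {q : ℕ → ℕ} {k : ℕ → ℕ} {η δ : ℝ} (b : ℕ → X)
    (D : Data q (fun j n => |co n (b j)|) k η δ) {R : ℕ} {c : ℕ → ℝ} {κ : ℝ}
    (hκ : ∀ i, |c i| ≤ κ) (hΛ : ∑ i ∈ Finset.range R, |c i| ≤ 2) :
    ‖∑ i ∈ Finset.range R, c i • ((1 / ((k (i + 1) : ℝ) - k i)) •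
      ∑ j ∈ Finset.Ico (k i) (k (i + 1)), b j)‖ ≤ κ * max 1 δ + δ + 2 * η := by
  have hη := D.eta_pos
  have hδ := D.d_nonneg
  have hκ0 : 0 ≤ κ := (abs_nonneg _).trans (hκ 0)
  have key : ∀ G : Finset ℕ, ∑ n ∈ G, |co n (∑ i ∈ Finset.range R, c i •
      ((1 / ((k (i + 1) : ℝ) - k i)) • ∑ j ∈ Finset.Ico (k i) (k (i + 1)), b j))| ≤
      ∑ i ∈ Finset.range R, |c i| * avg (fun j n => |co n (b j)|) k G i := by
    intro G
    calc ∑ n ∈ G, |co n (∑ i ∈ Finset.range R, c i •
          ((1 / ((k (i + 1) : ℝ) - k i)) • ∑ j ∈ Finset.Ico (k i) (k (i + 1)), b j))|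
        ≤ ∑ n ∈ G, ∑ i ∈ Finset.range R, |c i| * ((1 / ((k (i + 1) : ℝ) - k i)) *
            ∑ j ∈ Finset.Ico (k i) (k (i + 1)), |co n (b j)|) := by
          apply Finset.sum_le_sum
          intro n _
          rw [map_sum]
          refine (Finset.abs_sum_le_sum_abs _ _).trans ?_
          apply Finset.sum_le_sum
          intro i _
          rw [map_smul, map_smul, map_sum, smul_eq_mul, smul_eq_mul, abs_mul, abs_mul]
          have hpos := D.sz_pos i
          rw [abs_of_nonneg (a := 1 / ((k (i + 1) : ℝ) - k i)) (by positivity)]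
          gcongr
          exact Finset.abs_sum_le_sum_abs _ _
      _ = ∑ i ∈ Finset.range R, |c i| * avg (fun j n => |co n (b j)|) k G i := by
          rw [Finset.sum_comm]
          apply Finset.sum_congr rfl
          intro i _
          rw [← Finset.mul_sum, ← Finset.mul_sum]
          unfold avg
          rw [Finset.sum_comm]
          ring
  have hC : 0 ≤ κ * max 1 δ + δ + 2 * η := by positivity
  apply norm_le_of _ hC
  · intro G hG
    obtain ⟨i0, hi0⟩ := D.cap1 hG
    refine (key G).trans ((wsum_le (fun i => abs_nonneg _) hκ hΛ hδ hη.le hi0).trans ?_)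
    have : κ * δ ≤ κ * max 1 δ := mul_le_mul_of_nonneg_left (le_max_right _ _) hκ0
    linarith
  · intro G hG
    obtain ⟨i0, hi0⟩ := D.cap2 hG
    refine (key G).trans ((wsum_le (fun i => abs_nonneg _) hκ hΛ (by norm_num)
      (by positivity) hi0).trans ?_)
    have : κ * 1 ≤ κ * max 1 δ := mul_le_mul_of_nonneg_left (le_max_left _ _) hκ0
    linarith

lemma Pr_Ioc (x : X) {a q : ℕ} (h : a ≤ q) :
    Pr (Finset.range (q + 1)) x = Pr (Finset.range (a + 1)) x + Pr (Finset.Ioc a q) x := by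
  unfold Pr
  have hdisj : Disjoint (Finset.range (a + 1)) (Finset.Ioc a q) := by
    rw [Finset.disjoint_left]
    intro i hi hi'
    rw [Finset.mem_range] at hi
    rw [Finset.mem_Ioc] at hi'
    omega
  rw [← Finset.sum_union hdisj]
  congr 1
  ext i
  simp only [Finset.mem_range, Finset.mem_union, Finset.mem_Ioc]
  omega

/-- The main upper bound. -/
lemma upper {x : ℕ → X} (hx : ∀ n, ‖x n‖ ≤ 1) (hw : WeaklyConvergent x) {ε : ℝ} (hε : 0 < ε) :
    tcca 1 x ≤ ENNReal.ofReal (1 + 9 * ε) := by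
  classical
  obtain ⟨x0, hx0⟩ := hw
  -- heads are small eventually
  have hhead : ∀ a : ℕ, ∀ᶠ m in atTop, ‖Pr (Finset.range (a + 1)) (x m - x0)‖ ≤ ε := by
    intro a
    have h1 : Tendsto (fun m => Pr (Finset.range (a + 1)) (x m - x0)) atTop (𝓝 0) := by
      unfold Pr
      rw [show (0 : X) = ∑ i ∈ Finset.range (a + 1), (0:ℝ) • ug i by simp]
      apply tendsto_finsetSum
      intro i _
      apply Tendsto.smul_const
      have h2 := (hx0 (co i)).sub_const (co i x0)
      rw [sub_self] at h2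
      refine h2.congr fun m => ?_
      rw [map_sub]
    have h2 := h1.norm
    rw [norm_zero] at h2
    exact (h2.eventually (gt_mem_nhds hε)).mono fun m hm => hm.le
  obtain ⟨N0, hN0⟩ := tail x0 hε
  -- the recursive step
  have hstep : ∀ p : ℕ × ℕ, ∃ p' : ℕ × ℕ, p.2 < p'.2 ∧ (p.1 : ℝ) ≤ ε * p'.2 ∧
      ‖Pr (Finset.range (p.1 ^ 2 + 1)) (x p'.2 - x0)‖ ≤ ε ∧ p.1 ^ 2 + 1 ≤ p'.1 ∧
      ‖x p'.2 - Pr (Finset.range (p'.1 + 1)) (x p'.2)‖ ≤ ε := by
    rintro ⟨q, m⟩
    have hev : ∀ᶠ m' : ℕ in atTop, (q : ℝ) ≤ ε * m' := by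
      have : Tendsto (fun m' : ℕ => ε * (m' : ℝ)) atTop atTop :=
        tendsto_natCast_atTop_atTop.const_mul_atTop hε
      exact this.eventually (eventually_ge_atTop _)
    obtain ⟨m', h1, h2, h3⟩ := ((hhead (q ^ 2)).and (hev.and (eventually_gt_atTop m))).exists
    obtain ⟨N, hN⟩ := tail (x m') hε
    refine ⟨(max N (q ^ 2 + 1), m'), h3, h2, h1, le_max_right _ _, ?_⟩
    apply hN
    apply Finset.range_mono
    simp only
    have := le_max_left N (q ^ 2 + 1)
    omega
  choose step s1 s2 s3 s4 s5 using hstep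
  set st : ℕ → ℕ × ℕ := fun j => Nat.rec (N0 + 1, 0) (fun _ p => step p) j with hst
  have hst1 : ∀ j, st (j + 1) = step (st j) := fun j => rfl
  set q : ℕ → ℕ := fun j => (st j).1 with hq
  set M : ℕ → ℕ := fun j => (st (j + 1)).2 with hM
  have hMmono : StrictMono M := strictMono_nat_of_lt_succ fun j => s1 (st (j + 1))
  have hM0 : 1 ≤ M 0 := (s1 (st 0) : _)
  have hMpos : ∀ j, 1 ≤ M j := fun j => hM0.trans (hMmono.monotone (Nat.zero_le j))
  have hqs : ∀ j, q j ^ 2 + 1 ≤ q (j + 1) := fun j => s4 (st j)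
  have hq1 : ∀ j, N0 + 1 ≤ q j := by
    intro j
    induction j with
    | zero => exact le_rfl
    | succ j ih =>
      have h1 := hqs j
      have h2 : q j ≤ q j ^ 2 := by nlinarith
      omega
  set b : ℕ → X := fun j => Pr (Finset.Ioc (q j ^ 2) (q (j + 1))) (x (M j)) with hb
  have hrem : ∀ j, ‖x (M j) - x0 - b j‖ ≤ 3 * ε := by
    intro j
    have e1 := Pr_Ioc (x (M j)) (a := q j ^ 2) (q := q (j + 1)) (by have := hqs j; omega)
    have e2 : x (M j) - x0 - b j = (x (M j) - Pr (Finset.range (q (j + 1) + 1)) (x (M j))) +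
        (Pr (Finset.range (q j ^ 2 + 1)) (x (M j) - x0)) -
        (x0 - Pr (Finset.range (q j ^ 2 + 1)) x0) := by
      rw [e1, Pr_sub]
      simp only [hb]
      abel
    rw [e2]
    have h1 : ‖x (M j) - Pr (Finset.range (q (j + 1) + 1)) (x (M j))‖ ≤ ε := s5 (st j)
    have h2 : ‖Pr (Finset.range (q j ^ 2 + 1)) (x (M j) - x0)‖ ≤ ε := s3 (st j)
    have h3 : ‖x0 - Pr (Finset.range (q j ^ 2 + 1)) x0‖ ≤ ε := by
      apply hN0
      apply Finset.range_mono
      have h4 := hq1 j
      have h5 : q j ≤ q j ^ 2 := by nlinarith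
      omega
    have h4 := norm_sub_le ((x (M j) - Pr (Finset.range (q (j + 1) + 1)) (x (M j))) +
        (Pr (Finset.range (q j ^ 2 + 1)) (x (M j) - x0)))
        (x0 - Pr (Finset.range (q j ^ 2 + 1)) x0)
    have h5 := norm_add_le (x (M j) - Pr (Finset.range (q (j + 1) + 1)) (x (M j)))
        (Pr (Finset.range (q j ^ 2 + 1)) (x (M j) - x0))
    linarith
  have hbn : ∀ j, ‖b j‖ ≤ 1 := fun j => (norm_Pr_le _ _).trans (hx _)
  set k : ℕ → ℕ := start (zeroAvg M) with hk
  have hk1 : ∀ i, k (i + 1) = k i + M (k i) := fun i => start_zeroAvg M i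
  have hks : ∀ i, (k (i + 1) : ℝ) - k i = M (k i) := by
    intro i
    rw [hk1 i]
    push_cast
    ring
  have D : Data q (fun j n => |co n (b j)|) k ε 1 := by
    refine ⟨fun j => ?_, fun j => ?_, fun j n => abs_nonneg _, fun j n => ?_, fun j n hne => ?_,
      rfl, fun i => ?_, fun i => ?_, fun j F hF => ?_, fun j G hG => ?_⟩
    · have := hq1 j; omega
    · have := hqs j; omega
    · exact (abs_co_le _ _).trans (hbn j)
    · have h1 : co n (b j) ≠ 0 := fun h => hne (by simp only [h, abs_zero])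
      simp only [hb] at h1
      rw [co_Pr] at h1
      by_cases h2 : n ∈ Finset.Ioc (q j ^ 2) (q (j + 1))
      · exact Finset.mem_Ioc.1 h2
      · rw [if_neg h2] at h1
        exact absurd rfl h1
    · have h1 := hk1 i
      have h2 := hMpos (k i)
      omega
    · rw [hks i]
      exact s2 (st (k i))
    · exact (sum1 _ hF).trans (hbn j)
    · have h1 := sum2 (b j) hG
      have h2 := hbn j
      linarith
  -- the averaged sequence
  set y : ℕ → X := fun i => comb (repAvg 1 M i) x with hy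
  set bb : ℕ → X := fun i => (1 / ((k (i + 1) : ℝ) - k i)) •
      ∑ j ∈ Finset.Ico (k i) (k (i + 1)), b j with hbb
  have hyr : ∀ i, ‖y i - x0 - bb i‖ ≤ 3 * ε := by
    intro i
    have hpos : (0:ℝ) < M (k i) := by exact_mod_cast (hMpos (k i))
    have e1 : y i = (1 / (M (k i) : ℝ)) • ∑ j ∈ Finset.Ico (k i) (k (i + 1)), x (M j) := by
      simp only [hy]
      rw [comb_one, Finset.sum_Ico_eq_sum_range, hk1 i, Nat.add_sub_cancel_left]
    have e2 : x0 = (1 / (M (k i) : ℝ)) • ∑ j ∈ Finset.Ico (k i) (k (i + 1)), x0 := by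
      rw [Finset.sum_const, Nat.card_Ico, hk1 i, Nat.add_sub_cancel_left, ← Nat.cast_smul_eq_nsmul ℝ,
        smul_smul]
      rw [one_div, inv_mul_cancel₀ hpos.ne', one_smul]
    have e3 : y i - x0 - bb i = (1 / (M (k i) : ℝ)) •
        ∑ j ∈ Finset.Ico (k i) (k (i + 1)), (x (M j) - x0 - b j) := by
      rw [Finset.sum_sub_distrib, Finset.sum_sub_distrib, smul_sub, smul_sub, ← e1, ← e2]
      simp only [hbb]
      rw [hks i]
    rw [e3, norm_smul, Real.norm_eq_abs, abs_of_pos (by positivity)]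
    have h1 : ‖∑ j ∈ Finset.Ico (k i) (k (i + 1)), (x (M j) - x0 - b j)‖ ≤
        M (k i) * (3 * ε) := by
      refine (norm_sum_le _ _).trans ?_
      refine (Finset.sum_le_sum fun j _ => hrem j).trans ?_
      rw [Finset.sum_const, Nat.card_Ico, hk1 i, Nat.add_sub_cancel_left, nsmul_eq_mul]
    calc 1 / (M (k i) : ℝ) * ‖∑ j ∈ Finset.Ico (k i) (k (i + 1)), (x (M j) - x0 - b j)‖
        ≤ 1 / (M (k i) : ℝ) * (M (k i) * (3 * ε)) := by gcongr
      _ = 3 * ε := by field_simp
  -- pick the threshold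
  obtain ⟨N, hN⟩ := exists_nat_one_div_lt hε
  have hfinal : ∀ K L : ℕ, N ≤ K → N ≤ L → ‖ces y K - ces y L‖ ≤ 1 + 9 * ε := by
    intro K L hK hL
    set R := max K L + 1 with hR
    have hKR : K + 1 ≤ R := by have := le_max_left K L; omega
    have hLR : L + 1 ≤ R := by have := le_max_right K L; omega
    set c : ℕ → ℝ := fun i => cw K i - cw L i with hc
    have hc0 : ∑ i ∈ Finset.range R, c i = 0 := by
      simp only [hc]
      rw [Finset.sum_sub_distrib, sum_cw hKR, sum_cw hLR, sub_self]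
    have hcabs : ∑ i ∈ Finset.range R, |c i| ≤ 2 := by
      calc ∑ i ∈ Finset.range R, |c i| ≤ ∑ i ∈ Finset.range R, (cw K i + cw L i) := by
            apply Finset.sum_le_sum
            intro i _
            have h1 := cw_nonneg K i
            have h2 := cw_nonneg L i
            simp only [hc]
            rw [abs_le]
            constructor <;> linarith
        _ = 2 := by rw [Finset.sum_add_distrib, sum_cw hKR, sum_cw hLR]; norm_num
    have hκ : ∀ i, |c i| ≤ 1 / ((N : ℝ) + 1) := by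
      intro i
      have h1 := cw_nonneg K i
      have h2 := cw_nonneg L i
      have h3 : cw K i ≤ 1 / ((N : ℝ) + 1) := by
        refine (cw_le K i).trans ?_
        have : (N : ℝ) ≤ K := by exact_mod_cast hK
        gcongr
      have h4 : cw L i ≤ 1 / ((N : ℝ) + 1) := by
        refine (cw_le L i).trans ?_
        have : (N : ℝ) ≤ L := by exact_mod_cast hL
        gcongr
      simp only [hc]
      rw [abs_le]
      constructor <;> linarith
    have e1 : ces y K - ces y L = ∑ i ∈ Finset.range R, c i • bb i +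
        ∑ i ∈ Finset.range R, c i • (y i - x0 - bb i) := by
      rw [ces_eq y hKR, ces_eq y hLR, ← Finset.sum_sub_distrib, ← Finset.sum_add_distrib]
      have e2 : ∑ i ∈ Finset.range R, c i • x0 = 0 := by
        rw [← Finset.sum_smul, hc0, zero_smul]
      rw [← sub_zero (∑ i ∈ Finset.range R, (cw K i • y i - cw L i • y i)), ← e2,
        ← Finset.sum_sub_distrib]
      apply Finset.sum_congr rfl
      intro i _
      simp only [hc]
      rw [smul_sub, smul_sub, sub_smul, sub_smul, sub_smul]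
      abel
    have h1 : ‖∑ i ∈ Finset.range R, c i • bb i‖ ≤
        1 / ((N : ℝ) + 1) * max 1 1 + 1 + 2 * ε := comb_bound b D hκ hcabs
    have h2 : ‖∑ i ∈ Finset.range R, c i • (y i - x0 - bb i)‖ ≤ 6 * ε := by
      refine (norm_sum_le _ _).trans ?_
      calc ∑ i ∈ Finset.range R, ‖c i • (y i - x0 - bb i)‖
          ≤ ∑ i ∈ Finset.range R, |c i| * (3 * ε) := by
            apply Finset.sum_le_sum
            intro i _
            rw [norm_smul, Real.norm_eq_abs]
            exact mul_le_mul_of_nonneg_left (hyr i) (abs_nonneg _)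
        _ = (∑ i ∈ Finset.range R, |c i|) * (3 * ε) := by rw [Finset.sum_mul]
        _ ≤ 2 * (3 * ε) := by gcongr
        _ = 6 * ε := by ring
    rw [e1]
    have h3 := norm_add_le (∑ i ∈ Finset.range R, c i • bb i)
      (∑ i ∈ Finset.range R, c i • (y i - x0 - bb i))
    rw [max_self, mul_one] at h1
    linarith
  unfold tcca
  refine (iInf₂_le M hMmono).trans ((iInf_le _ hM0).trans ?_)
  unfold cca ca
  refine (iInf_le _ N).trans ?_
  refine iSup_le fun K => iSup_le fun L => iSup_le fun hK => iSup_le fun hL => ?_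
  rw [edist_dist, dist_eq_norm]
  exact ENNReal.ofReal_le_ofReal (hfinal K L hK hL)

end Pool.Agent.V1190.BS
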